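import Pool.Agent.N343.LT.Stm

/-!
Project LT of helper343: the Sylvester determinant evaluated with Vandermonde matrices.
-/

set_option autoImplicit false
set_option linter.all false

namespace Pool.Agent.N564.LT.RES

open Matrix Finset Polynomial Pool.Agent.N343.LT

theorem det_vdm {R : Type} [CommRing R] {n : ℕ} (v : Fin n → R) :
    (vandermonde v).det = ∏ i, ∏ j, if i < j then (v j - v i) else 1 := by
  rw [det_vandermonde]
  refine Finset.prod_congr rfl fun i _ => ?_
  rw [← Finset.prod_filter]
  refine Finset.prod_congr ?_ fun _ _ => rfl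
  ext j; simp

noncomputable def VV {R : Type} [CommRing R] {m l : ℕ} (v : Fin m ⊕ Fin l → R) :
    Matrix (Fin m ⊕ Fin l) (Fin m ⊕ Fin l) R :=
  Matrix.of fun i j => v i ^ (finSumFinEquiv j : ℕ)

theorem det_VV {R : Type} [CommRing R] {m l : ℕ} (u : Fin m → R) (y : Fin l → R) :
    (VV (Sum.elim u y)).det = (vandermonde u).det * (vandermonde y).det *
      ∏ a, ∏ b, (y b - u a) := by
  have h : VV (Sum.elim u y) =
      (vandermonde (Fin.append u y)).submatrix finSumFinEquiv finSumFinEquiv := by
    ext i j
    rcases i with i | i <;> simp [VV, vandermonde]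
  rw [h, det_submatrix_equiv_self, det_vdm, det_vdm, det_vdm, Fin.prod_univ_add]
  simp only [Fin.prod_univ_add, Fin.append_left, Fin.append_right]
  have h1 : ∀ (a : Fin m) (b : Fin l), Fin.castAdd l a < Fin.natAdd m b := by
    intro a b; simp only [Fin.lt_def, Fin.val_castAdd, Fin.val_natAdd]; omega
  have h2 : ∀ (a : Fin m) (b : Fin l), ¬ Fin.natAdd m b < Fin.castAdd l a := by
    intro a b; simp only [Fin.lt_def, Fin.val_castAdd, Fin.val_natAdd]; omega
  have h3 : ∀ a b : Fin m, (Fin.castAdd l a < Fin.castAdd l b) ↔ a < b := by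
    intro a b; simp only [Fin.lt_def, Fin.val_castAdd]
  have h4 : ∀ a b : Fin l, (Fin.natAdd m a < Fin.natAdd m b) ↔ a < b := by
    intro a b; simp only [Fin.lt_def, Fin.val_natAdd]; omega
  simp only [h1, h2, h3, h4, if_true, if_false, Finset.prod_const_one, one_mul, mul_one]
  rw [Finset.prod_mul_distrib]
  ring

noncomputable def Q {R : Type} [CommRing R] {m l : ℕ} (x : Fin m → R) (g : Polynomial R)
    (j : Fin m ⊕ Fin l) : Polynomial R :=
  Sum.elim (fun a : Fin m => g * X ^ (a : ℕ)) (fun b : Fin l => (∏ c, (X - C (x c))) * X ^ (b : ℕ)) j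

theorem RM_eq_eval {R : Type} [CommRing R] {m l : ℕ} (x : Fin m → R) (g : Polynomial R)
    (v : Fin m ⊕ Fin l → R) (i j : Fin m ⊕ Fin l) : RM x g v i j = (Q x g j).eval (v i) := by
  rcases j with j | j
  · simp [RM, Q]
  · simp [RM, Q, eval_prod]

theorem Q_deg {R : Type} [CommRing R] [IsDomain R] {m l : ℕ} (x : Fin m → R) (g : Polynomial R)
    (hg : g.natDegree ≤ l) (j : Fin m ⊕ Fin l) : (Q x g j).natDegree < m + l := by
  rcases j with a | b
  · have h1 : (g * X ^ (a : ℕ)).natDegree ≤ g.natDegree + (a : ℕ) :=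
      (natDegree_mul_le).trans (by simp)
    have := a.2
    simp only [Q, Sum.elim_inl]
    omega
  · have h1 : ((∏ c, (X - C (x c))) * X ^ (b : ℕ)).natDegree ≤ m + (b : ℕ) := by
      refine (natDegree_mul_le).trans ?_
      rw [natDegree_X_pow]
      have : (∏ c, (X - C (x c))).natDegree ≤ m := by
        refine (natDegree_prod_le _ _).trans ?_
        simp
      omega
    have := b.2
    simp only [Q, Sum.elim_inr]
    omega

noncomputable def Co {R : Type} [CommRing R] {m l : ℕ} (x : Fin m → R) (g : Polynomial R) :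
    Matrix (Fin m ⊕ Fin l) (Fin m ⊕ Fin l) R :=
  Matrix.of fun i j => (Q x g j).coeff (finSumFinEquiv i : ℕ)

theorem RM_mul {R : Type} [CommRing R] [IsDomain R] {m l : ℕ} (x : Fin m → R) (g : Polynomial R)
    (hg : g.natDegree ≤ l) (v : Fin m ⊕ Fin l → R) : RM x g v = VV v * Co x g := by
  ext i j
  rw [RM_eq_eval, eval_eq_sum_range' (Q_deg x g hg j), Matrix.mul_apply, Finset.sum_range,
    ← Equiv.sum_comp (finSumFinEquiv (m := m) (n := l))]
  refine Finset.sum_congr rfl fun k _ => ?_
  simp [VV, Co, mul_comm]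

theorem main : S_RES := by
  intro R _ _ m l x u y g hg hinj
  have key : ∀ v : Fin m ⊕ Fin l → R, (RM x g v).det = (VV v).det * (Co (l := l) x g).det := by
    intro v
    rw [RM_mul x g hg v, det_mul]
  -- block computation
  have hb : (RM x g (Sum.elim x y)).det = (∏ a, g.eval (x a)) * (vandermonde x).det *
      ((∏ b, ∏ a, (y b - x a)) * (vandermonde y).det) := by
    have e1 : RM x g (Sum.elim x y) = fromBlocks
        (Matrix.of fun a a' : Fin m => g.eval (x a) * vandermonde x a a') 0
        (Matrix.of fun (b : Fin l) (a' : Fin m) => g.eval (y b) * y b ^ (a' : ℕ))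
        (Matrix.of fun b b' : Fin l => (∏ c, (y b - x c)) * vandermonde y b b') := by
      ext i j
      rcases i with i | i <;> rcases j with j | j
      · simp [RM, vandermonde]
      · simp only [RM, Matrix.of_apply, Sum.elim_inl, Sum.elim_inr, fromBlocks_apply₁₂,
          Matrix.zero_apply]
        rw [Finset.prod_eq_zero (Finset.mem_univ i) (sub_self _), zero_mul]
      · simp [RM]
      · simp [RM, vandermonde]
    rw [e1, det_fromBlocks_zero₁₂, det_mul_column (fun a => g.eval (x a)) (vandermonde x),
      det_mul_column (fun b => ∏ c, (y b - x c)) (vandermonde y)]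
  have hne : (VV (Sum.elim x y)).det ≠ 0 := by
    have h : VV (Sum.elim x y) =
        (vandermonde (Fin.append x y)).submatrix finSumFinEquiv finSumFinEquiv := by
      ext i j
      rcases i with i | i <;> simp [VV, vandermonde]
    rw [h, det_submatrix_equiv_self, det_vandermonde_ne_zero_iff]
    intro i j hij
    have h1 : ∀ k, Fin.append x y k = Sum.elim x y (finSumFinEquiv.symm k) := by
      intro k
      refine Fin.addCases (fun a => ?_) (fun a => ?_) k <;> simp
    rw [h1, h1] at hij
    exact finSumFinEquiv.symm.injective (hinj hij)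
  have hc : (Co (l := l) x g).det = ∏ a, g.eval (x a) := by
    have h := key (Sum.elim x y)
    rw [hb] at h
    have h2 : (VV (Sum.elim x y)).det * (Co (l := l) x g).det =
        (VV (Sum.elim x y)).det * ∏ a, g.eval (x a) := by
      rw [← h, det_VV, Finset.prod_comm]
      ring
    exact mul_left_cancel₀ hne h2
  rw [key, det_VV, hc]
  ring

end Pool.Agent.N564.LT.RES
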